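import Pool.Agent.PST.StmtsK2
import Pool.Agent.PST.StmtsK4

/-!
# Squad PST, row DXI (helper79): the interface `DxiStmt` follows from `DrxStmt` (helper43)
-/

open scoped BigOperators PowerSeries

noncomputable section

namespace Pool.Agent.PST.H79

open Pool.Agent.PFC (tw IsTv)
open Pool.Agent.PFD.D2 (Cdv FibG)
open Pool.Agent.PFD.D2b (FrR)
open Pool.Agent.PSS
open Pool.Agent.PSS.S0 (IsBQ)

theorem dxi (drx : DrxStmt) (zun : ZunStmt) : DxiStmt := by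
  intro ℓ _ R K F V E A A₀ B κ Ω Br KB _ _ _ _ _ _ _ _ _ _ _ _ _ _ _ _ _ _ _ _ _ _ _ _ _ _ _ _ _
    φ W α lam x y b c C cv f α₀ lam₀ x₀ y₀ b₀ c₀ m₁ cc r αB β lamB xB yB hK hm1 hm2 hm3 hm4 hz hb
    hr hrl hq hrf hlam
  obtain ⟨u₀, hu₀⟩ := zun F V E A₀ κ φ α₀ lam₀ x₀ y₀ hK.cl hK.rf0
  obtain ⟨δ, hd, hw, hp, he⟩ := drx ℓ R K F V A A₀ Br B κ Ω KB W cv f α₀ lam₀ x₀ y₀ b₀ c₀ α lam x y
    b c u₀ C m₁ cc r αB β lamB xB yB hK.pg hK.pi hK.lv hu₀ hm1 hm2 hm3 hm4 hz hb hrl hq hrf hlam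
  refine ⟨δ, hd, hw, ?_, fun e h => (he e h).2⟩
  intro z g ρ hzr hzg hρ
  obtain ⟨ρ', h1, h2⟩ := hp g z hzr hzg
  have h3 : ρ = ρ' := by
    apply C.rinj
    rw [hρ, h1]
    unfold kp
    rw [mul_assoc]
  rw [h3, ← mul_assoc]
  exact h2

end Pool.Agent.PST.H79
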