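import Pool.Agent.PST.StmtsK2

/-! # Squad PST, row TRL (helper79) -/

open scoped BigOperators

noncomputable section

namespace Pool.Agent.PST.H79

open Pool.Agent.PFD.D2 (Cdv FibG)
open Pool.Agent.PFD.D2b (FrR)
open Pool.Agent.PSS
open Finset

theorem bw_apply' {R V A : Type} [CommRing R] [CommGroup V] [Ring A] [Algebra R A] (α : V →* A)
    (g : V × V) (a : A) : bw R α g a = α g.1 * (a * α g.2⁻¹) := rfl

theorem fx_zp {R V A : Type} [CommRing R] [CommGroup V] [Finite V] [Ring A] [Algebra R A]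
    (α : V →* A) (g : V) (a : A) (h : a * α g = α g * a) :
    a ∈ FxR (bw R α) (Subgroup.zpowers ((g, g) : V × V)) := by
  intro k hk
  rw [← mem_powers_iff_mem_zpowers] at hk
  obtain ⟨n, rfl⟩ := hk
  have h1 : bw R α (g, g) a = a := by
    rw [bw_apply']
    change α g * (a * α g⁻¹) = a
    rw [← mul_assoc, ← h, mul_assoc, ← map_mul, mul_inv_cancel, map_one, mul_one]
  induction n with
  | zero => simp
  | succ n ih =>
    change bw R α ((g, g) ^ (n + 1)) a = a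
    rw [pow_succ, map_mul, Module.End.mul_apply, h1]
    exact ih

theorem trl (bkz : BkzStmt) (uzl : UzlStmt) : TrlStmt := by
  intro ℓ _ R F V A A₀ κ Ω _ _ _ _ _ _ _ _ _ _ _ _ _ _ cv f α₀ lam₀ x₀ y₀ b₀ c₀ α lam x y b c u₀
    r hV hπ hL hu a ha hq
  obtain ⟨m₀, hm₀, hm₀'⟩ := bkz ℓ F V A₀ α₀ r hV (f.q a) hq
  obtain ⟨-, u2, -⟩ := uzl R F V A₀ A κ Ω cv α₀ lam₀ x₀ y₀ b₀ c₀ f α lam x y b c u₀ hL hu
  obtain ⟨m, hm, hmq⟩ := u2 (Subgroup.zpowers ((r ^ ℓ, r ^ ℓ) : V × V)) m₀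
    (fx_zp α₀ (r ^ ℓ) m₀ hm₀)
  have hm1 : α (r ^ ℓ) * (m * α (r ^ ℓ)⁻¹) = m :=
    hm (r ^ ℓ, r ^ ℓ) (Subgroup.mem_zpowers _)
  have hinv : ∀ v : V, α v⁻¹ * α v = 1 := fun v => by rw [← map_mul, inv_mul_cancel, map_one]
  have hinv' : ∀ v : V, α v * α v⁻¹ = 1 := fun v => by rw [← map_mul, mul_inv_cancel, map_one]
  have hm2 : m * α (r ^ ℓ) = α (r ^ ℓ) * m := by
    conv_lhs => rw [← hm1]
    rw [mul_assoc, mul_assoc, hinv, mul_one]
  -- the trace commutes with `r`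
  have hN : (∑ t ∈ range ℓ, α (r ^ t) * m * α (r ^ t)⁻¹) * α r =
      α r * ∑ t ∈ range ℓ, α (r ^ t) * m * α (r ^ t)⁻¹ := by
    have h1 : ∀ t : ℕ, α r * (α (r ^ t) * m * α (r ^ t)⁻¹) =
        (α (r ^ (t + 1)) * m * α (r ^ (t + 1))⁻¹) * α r := by
      intro t
      have e1 : α (r ^ (t + 1)) = α r * α (r ^ t) := by rw [pow_succ', map_mul]
      have e2 : α (r ^ (t + 1))⁻¹ = α (r ^ t)⁻¹ * α r⁻¹ := by
        rw [← map_mul]
        congr 1
        rw [pow_succ, mul_inv]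
      rw [e1, e2]
      simp only [mul_assoc, hinv, mul_one]
    rw [Finset.mul_sum, Finset.sum_mul]
    rw [Finset.sum_congr rfl fun t _ => h1 t]
    have h2 := Finset.sum_range_succ (fun t => (α (r ^ t) * m * α (r ^ t)⁻¹) * α r) ℓ
    have h3 := Finset.sum_range_succ' (fun t => (α (r ^ t) * m * α (r ^ t)⁻¹) * α r) ℓ
    have h4 : (α (r ^ ℓ) * m * α (r ^ ℓ)⁻¹) * α r = (α (r ^ 0) * m * α (r ^ 0)⁻¹) * α r := by
      rw [mul_assoc (α (r ^ ℓ)), hm1]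
      simp
    rw [h2, h4] at h3
    exact add_right_cancel h3
  have hd : f.q (a - ∑ t ∈ range ℓ, α (r ^ t) * m * α (r ^ t)⁻¹) = 0 := by
    rw [map_sub, hm₀', map_sum, sub_eq_zero]
    refine Finset.sum_congr rfl fun t _ => ?_
    rw [map_mul, map_mul, hL.qa, hL.qa, hmq]
  obtain ⟨a', ha'⟩ := f.ker _ hd
  have hreg : ∀ z : A, cv.π • z = 0 → z = 0 := by
    intro z hz
    rw [← hL.fr.2.2 z]
    refine Finset.sum_eq_zero fun ω _ => ?_
    have h1 : cv.π * c ω z = 0 := by rw [← smul_eq_mul, ← map_smul, hz, map_zero]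
    rw [cv.reg _ h1, zero_smul]
  refine ⟨m, a', hm2, ?_, ?_⟩
  · have h1 : cv.π • (a' * α r - α r * a') = 0 := by
      rw [smul_sub, ← smul_mul_assoc, ← mul_smul_comm, ← ha', sub_mul, mul_sub, hN, ha]
      abel
    exact sub_eq_zero.1 (hreg _ h1)
  · rw [← hπ, ← ha']
    abel

end Pool.Agent.PST.H79
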